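import Mathlib

set_option autoImplicit false

namespace Pool.Agent.MP_a656b1_co.H49

open Finset FinsetFamily

variable {n : ℕ}

/-- The coordinate set of the piece with support `S`. -/
def cs (h : Fin n → ℕ) (S : Finset (Fin n)) (i : Fin n) : Finset ℕ :=
  if i ∈ S then (range (2 * h i + 1)).erase (h i) else {h i}

/-- Points of the box differing from the centre exactly on `S`. -/
def piece (h : Fin n → ℕ) (S : Finset (Fin n)) : Finset (Fin n → ℕ) :=
  Fintype.piFinset (cs h S)

/-- The set of coordinates where `a` differs from the centre. -/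
def supp (h : Fin n → ℕ) (a : Fin n → ℕ) : Finset (Fin n) :=
  univ.filter (fun i => a i ≠ h i)

lemma mem_piece {h : Fin n → ℕ} {S : Finset (Fin n)} {a : Fin n → ℕ} :
    a ∈ piece h S ↔ ∀ i, a i ≤ 2 * h i ∧ (i ∈ S ↔ a i ≠ h i) := by
  unfold piece cs
  rw [Fintype.mem_piFinset]
  refine forall_congr' fun i => ?_
  by_cases hi : i ∈ S
  · simp only [hi, if_true, mem_erase, mem_range, true_iff]
    constructor
    · rintro ⟨h1, h2⟩; exact ⟨by omega, h1⟩
    · rintro ⟨h1, h2⟩; exact ⟨h2, by omega⟩
  · simp only [hi, if_false, mem_singleton, false_iff, not_not]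
    constructor
    · intro h1; exact ⟨by omega, h1⟩
    · rintro ⟨_, h2⟩; exact h2

lemma card_piece (h : Fin n → ℕ) (S : Finset (Fin n)) :
    (piece h S).card = ∏ i ∈ S, 2 * h i := by
  unfold piece
  rw [Fintype.card_piFinset]
  have : ∀ i, (cs h S i).card = if i ∈ S then 2 * h i else 1 := by
    intro i
    unfold cs
    split_ifs with hi
    · rw [card_erase_of_mem (by simp; omega)]; simp
    · simp
  simp only [this]
  rw [Finset.prod_ite_mem]
  simp

/-- A subset of a piece containing no antipodal pair has at most half of its points. -/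
lemma half_bound (h : Fin n → ℕ) (S : Finset (Fin n)) (U : Finset (Fin n → ℕ))
    (hU : U ⊆ piece h S)
    (hne : ∀ a ∈ U, ∀ b ∈ U, ∃ i, a i + b i ≠ 2 * h i) :
    2 * U.card ≤ (piece h S).card := by
  classical
  let r : (Fin n → ℕ) → (Fin n → ℕ) := fun a i => 2 * h i - a i
  have hinj : Set.InjOn r U := by
    intro a ha b hb hab
    funext i
    have h1 := (mem_piece.1 (hU ha) i).1
    have h2 := (mem_piece.1 (hU hb) i).1
    have h3 : 2 * h i - a i = 2 * h i - b i := congrFun hab i
    omega
  have hdisj : Disjoint U (U.image r) := by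
    rw [Finset.disjoint_left]
    intro a ha hb
    obtain ⟨b, hbU, rfl⟩ := mem_image.1 hb
    obtain ⟨i, hi⟩ := hne _ ha _ hbU
    have h2 := (mem_piece.1 (hU hbU) i).1
    apply hi
    show 2 * h i - b i + b i = 2 * h i
    omega
  have hsub : U ∪ U.image r ⊆ piece h S := by
    intro a ha
    rcases mem_union.1 ha with ha | ha
    · exact hU ha
    · obtain ⟨b, hbU, rfl⟩ := mem_image.1 ha
      rw [mem_piece]
      intro i
      have h2 := mem_piece.1 (hU hbU) i
      refine ⟨Nat.sub_le _ _, ?_⟩
      rw [h2.2]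
      show b i ≠ h i ↔ 2 * h i - b i ≠ h i
      have := h2.1
      omega
  have := card_le_card hsub
  rw [card_union_of_disjoint hdisj, card_image_of_injOn hinj] at this
  omega

lemma quarter_bound (h : Fin n → ℕ) (S : Finset (Fin n)) (G : Finset (Fin n → ℕ))
    (hG : G ⊆ piece h S)
    (hIU : ∀ a ∈ G, ∀ b ∈ G, (∃ i, 2 * h i < a i + b i) ∧ (∃ j, a j + b j < 2 * h j)) :
    4 * G.card ≤ (piece h S).card := by
  classical
  have hmain := Finset.le_card_infs_mul_card_sups G (piece h S)
  have hsup : 2 * (G ⊻ piece h S).card ≤ (piece h S).card := by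
    apply half_bound
    · intro a ha
      obtain ⟨x, hx, y, hy, rfl⟩ := mem_sups.1 ha
      rw [mem_piece]
      intro i
      have h1 := mem_piece.1 (hG hx) i
      have h2 := mem_piece.1 hy i
      have : (x ⊔ y) i = max (x i) (y i) := rfl
      rw [this]
      by_cases hi : i ∈ S
      · simp only [hi, true_iff] at h1 h2 ⊢
        omega
      · simp only [hi, false_iff] at h1 h2 ⊢
        omega
    · intro a ha b hb
      obtain ⟨x, hx, y, hy, rfl⟩ := mem_sups.1 ha
      obtain ⟨x', hx', y', hy', rfl⟩ := mem_sups.1 hb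
      obtain ⟨i, hi⟩ := (hIU x hx x' hx').1
      refine ⟨i, ?_⟩
      have e1 : (x ⊔ y) i = max (x i) (y i) := rfl
      have e2 : (x' ⊔ y') i = max (x' i) (y' i) := rfl
      rw [e1, e2]
      omega
  have hinf : 2 * (G ⊼ piece h S).card ≤ (piece h S).card := by
    apply half_bound
    · intro a ha
      obtain ⟨x, hx, y, hy, rfl⟩ := mem_infs.1 ha
      rw [mem_piece]
      intro i
      have h1 := mem_piece.1 (hG hx) i
      have h2 := mem_piece.1 hy i
      have : (x ⊓ y) i = min (x i) (y i) := rfl
      rw [this]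
      by_cases hi : i ∈ S
      · simp only [hi, true_iff] at h1 h2 ⊢
        omega
      · simp only [hi, false_iff] at h1 h2 ⊢
        omega
    · intro a ha b hb
      obtain ⟨x, hx, y, hy, rfl⟩ := mem_infs.1 ha
      obtain ⟨x', hx', y', hy', rfl⟩ := mem_infs.1 hb
      obtain ⟨i, hi⟩ := (hIU x hx x' hx').2
      refine ⟨i, ?_⟩
      have e1 : (x ⊓ y) i = min (x i) (y i) := rfl
      have e2 : (x' ⊓ y') i = min (x' i) (y' i) := rfl
      rw [e1, e2]
      omega
  rcases Nat.eq_zero_or_pos (piece h S).card with h0 | h0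
  · have := card_le_card hG
    omega
  · have : (4 * G.card) * (piece h S).card ≤ (piece h S).card * (piece h S).card := by
      calc (4 * G.card) * (piece h S).card = 4 * (G.card * (piece h S).card) := by ring
        _ ≤ 4 * ((G ⊼ piece h S).card * (G ⊻ piece h S).card) := Nat.mul_le_mul_left _ hmain
        _ = (2 * (G ⊼ piece h S).card) * (2 * (G ⊻ piece h S).card) := by ring
        _ ≤ _ := Nat.mul_le_mul hinf hsup
    exact Nat.le_of_mul_le_mul_right this h0

/-- The part of the count lost on the centre and on the axes. -/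
def loss (h : Fin n → ℕ) (S : Finset (Fin n)) : ℕ :=
  if S.card ≤ 1 then ∏ i ∈ S, 2 * h i else 0

lemma sum_loss (h : Fin n → ℕ) : ∑ S : Finset (Fin n), loss h S = 1 + ∑ i, 2 * h i := by
  classical
  unfold loss
  rw [← Finset.sum_filter]
  have : (univ.filter (fun S : Finset (Fin n) => S.card ≤ 1)) =
      insert ∅ (univ.image (fun i : Fin n => ({i} : Finset (Fin n)))) := by
    ext S
    simp only [mem_filter, mem_univ, true_and, mem_insert, mem_image]
    constructor
    · intro hS
      rcases Nat.le_one_iff_eq_zero_or_eq_one.1 hS with h0 | h1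
      · left; exact card_eq_zero.1 h0
      · right
        obtain ⟨a, rfl⟩ := card_eq_one.1 h1
        exact ⟨a, rfl⟩
    · rintro (rfl | ⟨a, rfl⟩) <;> simp
  rw [this, sum_insert (by simp), sum_image (by intro a _ b _ hab; simpa using hab)]
  simp

lemma sum_piece (h : Fin n → ℕ) :
    ∑ S : Finset (Fin n), ∏ i ∈ S, 2 * h i = ∏ i, (2 * h i + 1) := by
  rw [Finset.prod_add_one]
  simp

lemma card_eq_sum (h : Fin n → ℕ) (F : Finset (Fin n → ℕ)) :
    F.card = ∑ S : Finset (Fin n), (F.filter (fun a => supp h a = S)).card := by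
  classical
  exact card_eq_sum_card_fiberwise (fun a _ => mem_univ (supp h a))

lemma filter_sub_piece (h : Fin n → ℕ) (F : Finset (Fin n → ℕ)) (hF : ∀ a ∈ F, ∀ i, a i ≤ 2 * h i)
    (S : Finset (Fin n)) : F.filter (fun a => supp h a = S) ⊆ piece h S := by
  intro a ha
  obtain ⟨haF, rfl⟩ := mem_filter.1 ha
  rw [mem_piece]
  intro i
  exact ⟨hF a haF i, by simp [supp]⟩

theorem upper (h : Fin n → ℕ) (F : Finset (Fin n → ℕ)) (hF : ∀ a ∈ F, ∀ i, a i ≤ 2 * h i)
    (hIU : ∀ a ∈ F, ∀ b ∈ F, (∃ i, 2 * h i < a i + b i) ∧ (∃ j, a j + b j < 2 * h j)) :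
    4 * F.card + (1 + ∑ i, 2 * h i) ≤ ∏ i, (2 * h i + 1) := by
  classical
  rw [← sum_loss, ← sum_piece, card_eq_sum h F, mul_sum, ← sum_add_distrib]
  refine sum_le_sum fun S _ => ?_
  unfold loss
  split_ifs with hS
  · have : F.filter (fun a => supp h a = S) = ∅ := by
      rw [filter_eq_empty_iff]
      intro a ha hs
      obtain ⟨⟨i, hi⟩, ⟨j, hj⟩⟩ := hIU a ha a ha
      have h1 : i ∈ S := by rw [← hs]; simp [supp]; omega
      have h2 : j ∈ S := by rw [← hs]; simp [supp]; omega
      have : i = j := card_le_one.1 hS i h1 j h2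
      subst this
      omega
    rw [this]; simp
  · rw [add_zero, ← card_piece]
    apply quarter_bound h S _ (filter_sub_piece h F hF S)
    intro a ha b hb
    exact hIU a (mem_filter.1 ha).1 b (mem_filter.1 hb).1

/-- The extremal family: first coordinate off the centre is above it, last one is below it. -/
def ext (h : Fin n → ℕ) : Finset (Fin n → ℕ) :=
  (Fintype.piFinset (fun i => range (2 * h i + 1))).filter
    (fun a => (∃ i, h i < a i ∧ ∀ k, k < i → a k = h k) ∧ (∃ j, a j < h j ∧ ∀ k, j < k → a k = h k))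

lemma ext_le (h : Fin n → ℕ) : ∀ a ∈ ext h, ∀ i, a i ≤ 2 * h i := by
  intro a ha i
  have := Fintype.mem_piFinset.1 (mem_filter.1 ha).1 i
  rw [mem_range] at this
  omega

lemma ext_IU (h : Fin n → ℕ) :
    ∀ a ∈ ext h, ∀ b ∈ ext h, (∃ i, 2 * h i < a i + b i) ∧ (∃ j, a j + b j < 2 * h j) := by
  intro a ha b hb
  obtain ⟨⟨i, hi, hi'⟩, ⟨j, hj, hj'⟩⟩ := (mem_filter.1 ha).2
  obtain ⟨⟨k, hk, hk'⟩, ⟨l, hl, hl'⟩⟩ := (mem_filter.1 hb).2
  constructor
  · rcases lt_trichotomy i k with h1 | rfl | h1
    · exact ⟨i, by have := hk' i h1; omega⟩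
    · exact ⟨i, by omega⟩
    · exact ⟨k, by have := hi' k h1; omega⟩
  · rcases lt_trichotomy j l with h1 | rfl | h1
    · exact ⟨l, by have := hj' l h1; omega⟩
    · exact ⟨j, by omega⟩
    · exact ⟨j, by have := hl' j h1; omega⟩

lemma ext_piece (h : Fin n → ℕ) (S : Finset (Fin n)) (hS : 1 < S.card) :
    ∏ i ∈ S, 2 * h i ≤ 4 * ((ext h).filter (fun a => supp h a = S)).card := by
  classical
  have hne : S.Nonempty := card_pos.1 (by omega)
  set i := S.min' hne with hi
  set j := S.max' hne with hj
  have hij : i < j := S.min'_lt_max'_of_card hS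
  have hiS : i ∈ S := S.min'_mem hne
  have hjS : j ∈ S := S.max'_mem hne
  let c : Fin n → Finset ℕ := fun k =>
    if k = i then Ioc (h i) (2 * h i) else if k = j then range (h j) else cs h S k
  have hsub : Fintype.piFinset c ⊆ (ext h).filter (fun a => supp h a = S) := by
    intro a ha
    rw [Fintype.mem_piFinset] at ha
    have hai : h i < a i ∧ a i ≤ 2 * h i := by
      have := ha i
      simp only [c, if_true, mem_Ioc] at this
      exact this
    have haj : a j < h j := by
      have := ha j
      simp only [c, hij.ne', if_false, if_true, mem_range] at this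
      exact this
    have hak : ∀ k, a k ≤ 2 * h k ∧ (k ∈ S ↔ a k ≠ h k) := by
      intro k
      by_cases h1 : k = i
      · subst h1
        exact ⟨hai.2, by simp only [hiS, true_iff]; omega⟩
      by_cases h2 : k = j
      · subst h2
        exact ⟨by omega, by simp only [hjS, true_iff]; omega⟩
      have := ha k
      simp only [c, h1, h2, if_false, cs] at this
      by_cases hk : k ∈ S
      · simp only [hk, if_true, mem_erase, mem_range, true_iff] at this ⊢
        exact ⟨by omega, this.1⟩
      · simp only [hk, if_false, mem_singleton, false_iff, not_not] at this ⊢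
        exact ⟨by omega, this⟩
    rw [mem_filter]
    refine ⟨?_, ?_⟩
    · unfold ext
      rw [mem_filter]
      refine ⟨?_, ⟨i, hai.1, ?_⟩, ⟨j, haj, ?_⟩⟩
      · rw [Fintype.mem_piFinset]
        intro k
        have := (hak k).1
        rw [mem_range]; omega
      · intro k hk
        by_contra hc
        have := S.min'_le k ((hak k).2.2 hc)
        exact absurd hk (not_lt.2 this)
      · intro k hk
        by_contra hc
        have := S.le_max' k ((hak k).2.2 hc)
        exact absurd hk (not_lt.2 this)
    · ext k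
      simp only [supp, mem_filter, mem_univ, true_and]
      exact (hak k).2.symm
  have hcard := card_le_card hsub
  rw [Fintype.card_piFinset] at hcard
  have hc : ∀ k, (c k).card = if k ∈ S then (if k = i ∨ k = j then h k else 2 * h k) else 1 := by
    intro k
    by_cases h1 : k = i
    · subst h1
      simp only [c, if_true, hiS, true_or, Nat.card_Ioc]
      omega
    by_cases h2 : k = j
    · subst h2
      simp only [c, h1, if_false, if_true, hjS, or_true, card_range]
    simp only [c, h1, h2, if_false, cs, or_self]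
    split_ifs with hk
    · rw [card_erase_of_mem (by simp; omega)]; simp
    · simp
  simp only [hc] at hcard
  rw [Finset.prod_ite_mem, univ_inter] at hcard
  refine le_trans (le_of_eq ?_) (Nat.mul_le_mul_left 4 hcard)
  have hjS' : j ∈ S.erase i := mem_erase.2 ⟨hij.ne', hjS⟩
  rw [← mul_prod_erase S _ hiS, ← mul_prod_erase (S.erase i) _ hjS',
    ← mul_prod_erase S _ hiS, ← mul_prod_erase (S.erase i) _ hjS']
  have : ∏ x ∈ (S.erase i).erase j, (if x = i ∨ x = j then h x else 2 * h x) =
      ∏ x ∈ (S.erase i).erase j, 2 * h x := by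
    refine prod_congr rfl fun x hx => ?_
    have h1 := (mem_erase.1 hx).1
    have h2 := (mem_erase.1 (mem_erase.1 hx).2).1
    simp [h1, h2]
  rw [this]
  simp only [true_or, or_true, if_true]
  ring

theorem lower (h : Fin n → ℕ) :
    ∏ i, (2 * h i + 1) ≤ 4 * (ext h).card + (1 + ∑ i, 2 * h i) := by
  classical
  rw [← sum_loss, ← sum_piece, card_eq_sum h (ext h), mul_sum, ← sum_add_distrib]
  refine sum_le_sum fun S _ => ?_
  unfold loss
  split_ifs with hS
  · omega
  · rw [add_zero]
    exact ext_piece h S (by omega)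

end Pool.Agent.MP_a656b1_co.H49
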